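import Pool.Agent.N87.CFU.Final

set_option autoImplicit false

/-!
# A monoid with context-free word problem whose group of units is not finitely generated

The monoid is `⟨a, b, c | (a b^i c)^2 = 1 (i ≥ 0)⟩`. The relators form a context-free language, the
rewriting system is confluent, and the group of units is the free product of the groups of order two
generated by the elements `a b^i c`.
-/

namespace Pool.Agent.Results.MP_435286_al.UnitsNotFG

/-- The word problem of the monoid `M` with respect to `φ : A → M`: the language of all words
`u # v^rev` with `u`, `v` words over `A` having the same value in `M`. The letter `x` of `A` is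
written `some x` and the letter `#` is written `none`. -/
def WordProblem {M A : Type} [Monoid M] (φ : A → M) : Language (Option A) :=
  {z | ∃ u v : List A, (u.map φ).prod = (v.map φ).prod ∧
    z = u.map some ++ none :: v.reverse.map some}

/-- There is a monoid `M` with a finite generating set with respect to which the word problem is
context-free, and whose group of units is not finitely generated. -/
theorem result : ∃ (M : Type) (_ : Monoid M) (A : Type) (_ : Finite A) (φ : A → M),
    Submonoid.closure (Set.range φ) = ⊤ ∧ (WordProblem φ).IsContextFree ∧ ¬ Group.FG Mˣ := by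
  refine ⟨Pool.Agent.N87.CFU.Mon, inferInstance, Pool.Agent.N87.CFU.Ltr, ?_,
    Pool.Agent.N87.CFU.φ, Pool.Agent.N87.CFU.closure_φ,
    ⟨Pool.Agent.N87.CFU.G, Pool.Agent.N87.CFU.language_eq⟩, Pool.Agent.N87.CFU.not_fg⟩
  refine Finite.of_surjective (fun i : Fin 3 => if i = 0 then Pool.Agent.N87.CFU.Ltr.a else
    if i = 1 then Pool.Agent.N87.CFU.Ltr.b else Pool.Agent.N87.CFU.Ltr.c) ?_
  intro x
  cases x
  · exact ⟨0, rfl⟩
  · exact ⟨1, rfl⟩
  · exact ⟨2, rfl⟩

end Pool.Agent.Results.MP_435286_al.UnitsNotFG
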